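import Mathlib
import Pool.Agent.Y939.NC.Std
import Pool.Agent.TH167.SH.Fam
import Pool.Agent.TH167.SH.Conv

/-! # Standard forms of negative curves -/

set_option autoImplicit false

namespace Pool.Agent.Q288.NC

open MvPolynomial Pool.Agent.W609 Pool.Agent.W609.CR Pool.Agent.TH167 Pool.Agent.TH167.SH

/-- the points are generic -/
abbrev Gen {s : ℕ} (P : Fin s → Fin 2 → ℂ) : Prop :=
  AlgebraicIndependent ℚ (fun ij : Fin s × Fin 2 => P ij.1 ij.2)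

/-- The standard form of a negative curve which is not a `(-1)`-curve. -/
theorem std_neg {s : ℕ} (hs : 4 ≤ s) {P : Fin s → Fin 2 → ℂ} (hP : Gen P) {d : ℕ}
    {w : Fin s → ℕ} {C : MvPolynomial (Fin 3) ℂ} (hC : SHDefs.Curve P C d w)
    (hneg : SHDefs.inter d w d w < 0) (hne : ¬ SHDefs.MinusOne P C d w) :
    ∃ (P1 : Fin s → Fin 2 → ℂ) (d1 : ℕ) (w1 : Fin s → ℕ) (C1 : MvPolynomial (Fin 3) ℂ),
      Gen P1 ∧ SHDefs.Curve P1 C1 d1 w1 ∧
      Relation.ReflTransGen SHDefs.Quadratic (d, w) (d1, w1) ∧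
      (∀ i j k : Fin s, i ≠ j → i ≠ k → j ≠ k → w1 i + w1 j + w1 k ≤ d1) ∧
      d1 ≤ d ∧ (∀ i, w1 i ≤ w i) ∧
      SHDefs.inter d1 w1 d1 w1 = SHDefs.inter d w d w ∧
      SHDefs.interK d1 w1 = SHDefs.interK d w ∧ 0 < SHDefs.interK d w := by
  obtain ⟨r, rfl⟩ : ∃ r, s = r + 4 := ⟨s - 4, by omega⟩
  obtain ⟨h1, h2, h3⟩ := curve_iff.1 hC
  have hne' : ¬ (ip d w d w = -1 ∧ kk d w = 1) := fun h0 =>
    hne ⟨hC, by rw [inter_eq, h0.1], by rw [interK_eq, h0.2]⟩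
  obtain ⟨M, hM⟩ : ∃ M, ∀ j, w j ≤ M := ⟨∑ j, w j, fun j =>
    Finset.single_le_sum (fun _ _ => Nat.zero_le _) (Finset.mem_univ j)⟩
  have hw : Few M d w := by
    left
    rw [Finset.filter_false_of_mem fun j _ => not_lt.2 (hM j)]
    simp
  obtain ⟨P1, d1, w1, C1, a1, a2, a3, a4, a5, a6, a7, a8⟩ :=
    Pool.Agent.Y939.NC.std_irr d P hP w hw C h1 h2 h3 hne'
  obtain ⟨c1, c2, c3⟩ := quad_inv a5
  simp only at c1 c2 c3
  rw [inter_eq] at hneg
  have hwd : ∀ j, w1 j ≤ d1 := fun j => van_le a2.ne_zero a3 (a4 j).1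
  have hK : kk d1 w1 < 0 := by
    by_contra hcon
    push Not at hcon
    have h4 : 0 ≤ kk d1 w1 := hcon
    rw [kk_cast] at h4
    have h5 := red_ip a6 hwd (by omega)
    omega
  refine ⟨P1, d1, w1, C1, a1, curve_iff.2 ⟨a2, a3, a4⟩, chain_conv a5, a6, a7, a8,
    by rw [inter_eq, inter_eq, c3], by rw [interK_eq, interK_eq, c2], ?_⟩
  rw [interK_eq, ← c2]
  omega

theorem pos_of_curve {s : ℕ} {P : Fin s → Fin 2 → ℂ} {d : ℕ} {w v : Fin s → ℕ}
    {C : MvPolynomial (Fin 3) ℂ} (hC : SHDefs.Curve P C d w) (hv : ∀ i, v i ≤ w i) :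
    0 < Module.finrank ℂ ↥(SHDefs.sys P d v) := by
  obtain ⟨h1, h2, h3⟩ := curve_iff.1 hC
  rw [sys_eq]
  have hmem : C ∈ VS (fun j => aff (P j)) v d :=
    (mem_VS _ _ _ _).2 ⟨h2, fun j => van_mono (hv j) (h3 j).1⟩
  have hfin := vs_fin (fun j => aff (P j)) v d
  exact Module.finrank_pos_iff.2 ⟨⟨C, hmem⟩, 0, fun h7 => h1.ne_zero (congrArg Subtype.val h7)⟩

theorem two_chi' {n : ℕ} (v : Fin n → ℕ) :
    2 * (∑ j, (v j + 1).choose 2) = ∑ j, v j * (v j + 1) := by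
  rw [Finset.mul_sum]
  refine Finset.sum_congr rfl fun j _ => ?_
  rw [Nat.choose_two_right, Nat.add_sub_cancel, mul_comm 2,
    Nat.div_mul_cancel (by rw [mul_comm]; exact (Nat.even_mul_succ_self (v j)).two_dvd)]
  ring

/-- A curve in a system of the expected dimension. -/
theorem ineq_of_exp {s : ℕ} {P : Fin s → Fin 2 → ℂ} {d : ℕ} {w v : Fin s → ℕ}
    {C : MvPolynomial (Fin 3) ℂ} (hC : SHDefs.Curve P C d w) (hv : ∀ i, v i ≤ w i)
    (he : Module.finrank ℂ ↥(SHDefs.sys P d v) =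
      (d + 2).choose 2 - ∑ i, (v i + 1).choose 2) :
    ∑ i, v i * (v i + 1) ≤ d * (d + 3) := by
  have h1 := pos_of_curve hC hv
  rw [he] at h1
  have h2 : ∑ i, (v i + 1).choose 2 < (d + 2).choose 2 := by omega
  have h3 := two_chi' v
  have h4 : 2 * (d + 2).choose 2 = (d + 1) * (d + 2) := by
    rw [Nat.choose_two_right, mul_comm 2, Nat.div_mul_cancel]
    · rw [show d + 2 - 1 = d + 1 by omega]; ring
    · rw [show d + 2 - 1 = d + 1 by omega, mul_comm]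
      exact (Nat.even_mul_succ_self (d + 1)).two_dvd
  rw [← h3]
  nlinarith

end Pool.Agent.Q288.NC
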