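import Mathlib
import Pool.Agent.Q288.NC.Std
import Pool.Agent.H932R7.Final2

/-! # Negative curves and bounded multiplicities -/

set_option autoImplicit false

namespace Pool.Agent.Q288.NC

open MvPolynomial Pool.Agent.TH167

/-- The vector `v` of multiplicities is `m`-bounded with gaps filled down to `k`: all `v i ≤ m`, and
for every multiplicity `v i > k` the smaller multiplicities that are at least `min 2 k` satisfy
`∑ v j (v j + 1) ≥ 2 v i (v i + 1) (v i + 2)`; and the degree `d` is large compared to `m`. -/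
structure Filled {s : ℕ} (m k d : ℕ) (v : Fin s → ℕ) : Prop where
  pos : 0 < k
  le : k ≤ m
  bound : ∀ i, v i ≤ m
  freq : ∀ i, k < v i → 2 * (v i * (v i + 1) * (v i + 2)) ≤
    ∑ j ∈ Finset.univ.filter (fun j => min 2 k ≤ v j ∧ v j < v i), v j * (v j + 1)
  size : (m : ℝ) * (m + 1) * (m + 6 * Real.sqrt m + 10) ≤
    ((max ((d + 1) * (d + 2)) (∑ i, (v i + 1).choose 2) : ℕ) : ℝ)
  gap : (d + 2).choose 2 + 2 * (k + 1).choose 3 ≤ ∑ i, (v i + 1).choose 2 ∨
    ∑ i ∈ Finset.univ.filter (fun i => v i ≠ 1), (v i + 1).choose 2 + 2 * (k + 1).choose 3 ≤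
      (d + 2).choose 2 ∨
    ∀ i, v i ≤ 1 ∨ k ≤ v i

theorem filled_exp {s : ℕ} {P : Fin s → Fin 2 → ℂ} (hP : Gen P) {m k d : ℕ} {v : Fin s → ℕ}
    (h : Filled m k d v) : Module.finrank ℂ ↥(SHDefs.sys P d v) =
      (d + 2).choose 2 - ∑ i, (v i + 1).choose 2 := by
  obtain ⟨F, hF, hF'⟩ := Pool.Agent.H932R7.bounded2 ℂ h.pos h.le h.bound h.freq
  exact hF' P (fun h0 => hF (hP.eq_zero_of_aeval_eq_zero F h0)) d ⟨h.size, h.gap⟩

theorem filled_ineq {s : ℕ} {P : Fin s → Fin 2 → ℂ} (hP : Gen P) {d : ℕ} {w : Fin s → ℕ}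
    {C : MvPolynomial (Fin 3) ℂ} (hC : SHDefs.Curve P C d w) {m k : ℕ} {v : Fin s → ℕ}
    (h : Filled m k d v) (hv : ∀ i, v i ≤ w i) : ∑ i, v i * (v i + 1) ≤ d * (d + 3) :=
  ineq_of_exp hC hv (filled_exp hP h)

end Pool.Agent.Q288.NC
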