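import Mathlib
import Pool.Agent.Q288.NC.Std
import Pool.Agent.TH442.NM.Main

/-! # Negative curves and the variance of the multiplicities -/

set_option autoImplicit false

namespace Pool.Agent.Q288.NC

open MvPolynomial Pool.Agent.TH167

/-- `n` times the variance of the multiplicities at the `n` points of `T`, plus the squares of the
other multiplicities. -/
noncomputable def spread {s : ℕ} (T : Finset (Fin s)) (w : Fin s → ℕ) : ℝ :=
  ∑ i ∈ T, ((w i : ℝ) - (∑ j ∈ T, (w j : ℝ)) / T.card) ^ 2 + ∑ i ∈ Tᶜ, (w i : ℝ) ^ 2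

/-- The bound for the spread on `T`: with `k = - C ^ 2`, `n = |T| ≥ 10` and `S = ∑_{i ∈ T} w i > 0`,
the spread is larger than `k`, and if `n ≥ 18` and `S ≥ n (n / 2 - 11 √n / 6 + 2)` it is larger than
`(1 - 11 / (3 √n) - 9 / (4 n)) S + k`. -/
def WideSpread {s : ℕ} (k : ℝ) (w : Fin s → ℕ) (T : Finset (Fin s)) : Prop :=
  (10 ≤ T.card → 0 < ∑ i ∈ T, (w i : ℝ) → k < spread T w) ∧
  (18 ≤ T.card →
    (T.card : ℝ) * ((T.card : ℝ) / 2 - 11 / 6 * √(T.card : ℝ) + 2) ≤ ∑ i ∈ T, (w i : ℝ) →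
    (1 - 11 / (3 * √(T.card : ℝ)) - 9 / (4 * (T.card : ℝ))) * (∑ i ∈ T, (w i : ℝ)) + k <
      spread T w)

theorem wide {s : ℕ} {P : Fin s → Fin 2 → ℂ} (hP : Gen P) {d : ℕ} {w : Fin s → ℕ}
    {C : MvPolynomial (Fin 3) ℂ} (hC : SHDefs.Curve P C d w) (T : Finset (Fin s)) :
    WideSpread (-(SHDefs.inter d w d w : ℝ)) w T := by
  have hI : (SHDefs.inter d w d w : ℝ) = (d : ℝ) ^ 2 - ∑ i, (w i : ℝ) ^ 2 := by
    unfold SHDefs.inter
    push_cast
    rw [pow_two]
    congr 1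
    exact Finset.sum_congr rfl fun i _ => by ring
  have hm : ∀ i, C ∈ (Ideal.span ({MvPolynomial.X 0 - MvPolynomial.C (P i 0) * MvPolynomial.X 2,
      MvPolynomial.X 1 - MvPolynomial.C (P i 1) * MvPolynomial.X 2} :
        Set (MvPolynomial (Fin 3) ℂ))) ^ (w i) := fun i => (hC.mult i).1
  refine ⟨fun h10 hS => ?_, fun h18 hS => ?_⟩
  · have h1 := (Pool.Agent.TH142.NU.main hP hC.irreducible.ne_zero hC.homogeneous hm T h10).1 hS
    rw [hI]
    unfold spread
    linarith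
  · have h1 := Pool.Agent.TH442.NM.window hP hC.irreducible.ne_zero hC.homogeneous hm T h18 hS
    rw [hI]
    have h2 : Pool.Agent.TH442.NM.spr T w = spread T w := rfl
    rw [h2] at h1
    linarith

end Pool.Agent.Q288.NC
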